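import Pool.Agent.P.MP_501d1b_lc.Basic
import Pool.Agent.P.MP_501d1b_lc.Hard
import Pool.Agent.P.MP_501d1b_lc.Upper

/-! Negative answer to Q1: a finite structure of bounded width whose Borel homomorphism problem
is `Σ¹₂`-complete and not `Π¹₁`, on any uncountable Polish space and for any enumerated bases. -/

namespace Pool.Agent.Results.MP_501d1b_lc.BoundedWidthHard

open Pool.Agent.P.MP_501d1b_lc

theorem result : ∃ (L : Sig) (m : ℕ) (H : Str L (Fin m)), BoundedWidth H ∧
    ∀ (X : Type) [TopologicalSpace X] [PolishSpace X]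
      (I : (i : Fin L.k) → ℕ → Set (Fin (L.ar i) → X)),
      (∀ i, TopologicalSpace.IsTopologicalBasis (Set.range (I i))) →
        IsSigma12 (CSPB H I) ∧
          (Uncountable X → Sigma12Hard (CSPB H I) ∧ ¬ IsPi11 (CSPB H I)) :=
  ⟨L0, 3, H0, boundedWidth_H0, fun X _ _ I hI =>
    ⟨isSigma12_CSPB H0 X I hI, fun _ => ⟨sigma12Hard X I hI, not_pi11 X I hI⟩⟩⟩

end Pool.Agent.Results.MP_501d1b_lc.BoundedWidthHard
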